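import Mathlib

namespace Pool.Agent.Results.MP_1f9c83_co.Full

variable {d n : ℕ}

/-- sum of `K` over the hyperplane `α i = j` -/
def hsum (K : (Fin d → Fin n) → ℝ) (i : Fin d) (j : Fin n) : ℝ :=
  ∑ α ∈ Finset.univ.filter (fun α : Fin d → Fin n => α i = j), K α

def IsPolyplex (A : (Fin d → Fin n) → Bool) (K : (Fin d → Fin n) → ℝ) : Prop :=
  (∀ α, 0 ≤ K α) ∧ (∀ α, A α = false → K α = 0) ∧ ∀ i j, hsum K i j ≤ 1

def IsPolydiagonal (A : (Fin d → Fin n) → Bool) (K : (Fin d → Fin n) → ℝ) : Prop :=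
  IsPolyplex A K ∧ ∀ i j, hsum K i j = 1

def Extremal (A : (Fin d → Fin n) → Bool) : Prop :=
  (¬ ∃ K, IsPolydiagonal A K) ∧
    ∀ α, A α = false → ∃ K, IsPolydiagonal (Function.update A α true) K

/-- the weights of the polyplexes in `A` -/
def weights (A : (Fin d → Fin n) → Bool) : Set ℝ := {x | ∃ K, IsPolyplex A K ∧ x = ∑ α, K α}

noncomputable def deficiency (A : (Fin d → Fin n) → Bool) : ℝ := n - sSup (weights A)

def w : Fin 11 → ℕ := ![6, 10, 13, 15, 28, 32, 37, 50, 73, 81, 91]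

def A0 (α : Fin 11 → Fin 2) : Bool := decide (219 ≤ ∑ i, w i * (α i).val)

def nos : List ℕ → ℕ → Bool
  | [], t => t != 0
  | x :: r, t => nos r t && (Nat.blt t x || nos r (t - x))

theorem nos_sound : ∀ (k : ℕ) (u : Fin k → ℕ) (α : Fin k → Fin 2) (t : ℕ),
    nos (List.ofFn u) t = true → ∑ i, u i * (α i).val ≠ t := by
  intro k
  induction k with
  | zero =>
    intro u α t h
    rw [List.ofFn_zero, nos, bne_iff_ne] at h
    rw [Fin.sum_univ_zero]
    exact h.symm
  | succ k ih =>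
    intro u α t h
    rw [List.ofFn_succ] at h
    simp only [nos, Bool.and_eq_true, Bool.or_eq_true, Nat.blt_eq] at h
    rw [Fin.sum_univ_succ]
    have h0 : (α 0).val = 0 ∨ (α 0).val = 1 := by have := (α 0).2; omega
    have a := ih (fun i => u i.succ) (fun i => α i.succ) t h.1
    rcases h0 with h0 | h0 <;> rw [h0]
    · omega
    · rcases h.2 with b | b
      · omega
      · have := ih (fun i => u i.succ) (fun i => α i.succ) _ b
        omega

theorem no_tie (α : Fin 11 → Fin 2) : ∑ i, w i * (α i).val ≠ 218 :=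
  nos_sound 11 w α 218 (by decide +kernel)

theorem upper {K : (Fin 11 → Fin 2) → ℝ} (h : IsPolyplex A0 K) : ∑ α, K α ≤ 436 / 219 := by
  obtain ⟨h1, h2, h3⟩ := h
  have e : ∀ i, hsum K i 1 = ∑ α, K α * ((α i).val : ℝ) := by
    intro i
    rw [hsum, Finset.sum_filter]
    refine Finset.sum_congr rfl fun α _ => ?_
    generalize α i = j
    fin_cases j <;> simp
  have a : ∑ α, K α * 219 ≤ ∑ α, ∑ i, (w i : ℝ) * (K α * ((α i).val : ℝ)) := by
    refine Finset.sum_le_sum fun α _ => ?_
    cases hA : A0 α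
    · simp [h2 α hA]
    · have : (219 : ℝ) ≤ ∑ i, (w i : ℝ) * ((α i).val : ℝ) := by
        have := of_decide_eq_true hA
        exact_mod_cast this
      calc K α * 219 ≤ K α * ∑ i, (w i : ℝ) * ((α i).val : ℝ) :=
            mul_le_mul_of_nonneg_left this (h1 α)
        _ = _ := by rw [Finset.mul_sum]; exact Finset.sum_congr rfl fun i _ => by ring
  rw [Finset.sum_comm, ← Finset.sum_mul] at a
  have b : ∑ i, ∑ α, (w i : ℝ) * (K α * ((α i).val : ℝ)) ≤ ∑ i, (w i : ℝ) := by
    refine Finset.sum_le_sum fun i _ => ?_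
    rw [← Finset.mul_sum, ← e]
    exact mul_le_of_le_one_right (by positivity) (h3 i 1)
  have c : ∑ i, (w i : ℝ) = 436 := by
    have : ∑ i, w i = 436 := by decide
    exact_mod_cast this
  rw [le_div_iff₀ (by norm_num)]
  linarith

/-- a finite combination of point masses -/
noncomputable def comb {ι : Type} [Fintype ι] (p : ι → Fin d → Fin n) (c : ι → ℝ)
    (α : Fin d → Fin n) : ℝ := ∑ t, if α = p t then c t else 0

theorem comb_sum {ι : Type} [Fintype ι] (p : ι → Fin d → Fin n) (c : ι → ℝ) :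
    ∑ α, comb p c α = ∑ t, c t := by
  simp only [comb]
  rw [Finset.sum_comm]
  simp

theorem comb_h {ι : Type} [Fintype ι] (p : ι → Fin d → Fin n) (c : ι → ℝ) (i : Fin d) (j : Fin n) :
    hsum (comb p c) i j = ∑ t, if p t i = j then c t else 0 := by
  simp only [hsum, comb]
  rw [Finset.sum_comm]
  simp

theorem comb_poly {ι : Type} [Fintype ι] (A : (Fin d → Fin n) → Bool) (p : ι → Fin d → Fin n)
    (c : ι → ℝ) (hc : ∀ t, 0 ≤ c t) (hp : ∀ t, A (p t) = true)
    (hh : ∀ i j, (∑ t, if p t i = j then c t else 0) ≤ 1) : IsPolyplex A (comb p c) := by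
  refine ⟨fun α => Finset.sum_nonneg fun t _ => ?_, fun α h => Finset.sum_eq_zero fun t _ => ?_,
    fun i j => by rw [comb_h]; exact hh i j⟩
  · split_ifs
    · exact hc t
    · exact le_rfl
  · rw [if_neg]
    rintro rfl
    rw [hp] at h
    exact Bool.noConfusion h

def pts : Fin 11 → Fin 11 → Fin 2 := ![
  ![0, 1, 0, 0, 0, 0, 1, 0, 0, 1, 1],
  ![0, 0, 0, 1, 0, 0, 0, 1, 1, 1, 0],
  ![1, 0, 1, 0, 1, 0, 0, 0, 0, 1, 1],
  ![1, 1, 0, 1, 1, 0, 1, 1, 1, 0, 0],
  ![0, 0, 1, 1, 0, 0, 1, 0, 1, 1, 0],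
  ![0, 0, 1, 0, 1, 0, 1, 1, 0, 0, 1],
  ![0, 0, 0, 1, 0, 1, 0, 0, 0, 1, 1],
  ![0, 1, 1, 0, 0, 1, 0, 0, 1, 0, 1],
  ![0, 0, 1, 1, 1, 1, 0, 1, 0, 1, 0],
  ![1, 0, 1, 0, 0, 1, 1, 1, 0, 1, 0],
  ![0, 0, 0, 0, 1, 0, 1, 0, 1, 1, 0]]

def y : Fin 11 → ℕ := ![17, 4, 45, 123, 3, 15, 63, 79, 26, 51, 10]

theorem lower : (436 / 219 : ℝ) ∈ weights A0 := by
  refine ⟨comb pts fun t => (y t : ℝ) / 219,
    comb_poly _ _ _ (fun t => by positivity) (by decide +kernel) fun i j => ?_, ?_⟩
  · have h : ∀ i j, (∑ t, if pts t i = j then y t else 0) ≤ 219 := by decide +kernel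
    have h2 : ((∑ t, if pts t i = j then y t else 0 : ℕ) : ℝ) ≤ 219 := by exact_mod_cast h i j
    have e : (∑ t, if pts t i = j then (y t : ℝ) / 219 else 0) =
        ((∑ t, if pts t i = j then y t else 0 : ℕ) : ℝ) / 219 := by
      push_cast
      rw [Finset.sum_div]
      exact Finset.sum_congr rfl fun t _ => by split_ifs <;> simp
    rw [e, div_le_one (by norm_num)]
    exact h2
  · rw [comb_sum, ← Finset.sum_div]
    have : ∑ t, y t = 436 := by decide
    have h2 : ∑ t, (y t : ℝ) = 436 := by exact_mod_cast this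
    rw [h2]

theorem defi : deficiency A0 = 2 / 219 := by
  have : IsGreatest (weights A0) (436 / 219) := ⟨lower, by rintro _ ⟨K, h, rfl⟩; exact upper h⟩
  rw [deficiency, this.csSup_eq]
  norm_num

theorem extremal : Extremal A0 := by
  constructor
  · rintro ⟨K, h1, h2⟩
    have a := upper h1
    have b : ∑ α, K α = hsum K 0 0 + hsum K 0 1 := by
      rw [hsum, hsum, Finset.sum_filter, Finset.sum_filter, ← Finset.sum_add_distrib]
      refine Finset.sum_congr rfl fun α _ => ?_
      generalize α 0 = j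
      fin_cases j <;> simp
    rw [b, h2, h2] at a
    norm_num at a
  · intro α hα
    let p : Bool → Fin 11 → Fin 2 := fun b => if b then α else fun i => (α i).rev
    have hh : ∀ i j, (∑ t, if p t i = j then (1 : ℝ) else 0) = 1 := by
      intro i j
      simp only [p, Fintype.sum_bool, if_true, Bool.false_eq_true, if_false]
      generalize α i = k
      fin_cases j <;> fin_cases k <;> simp [Fin.rev]
    refine ⟨comb p fun _ => 1, comb_poly _ _ _ (fun _ => zero_le_one) ?_ fun i j => (hh i j).le,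
      fun i j => by rw [comb_h]; exact hh i j⟩
    intro b
    by_cases e : p b = α
    · rw [e, Function.update_self]
    rw [Function.update_of_ne e]
    cases b
    · have h1 : ¬ 219 ≤ ∑ i, w i * (α i).val := of_decide_eq_false hα
      have h2 := no_tie α
      have h3 : ∑ i, w i * (α i).val + ∑ i, w i * ((α i).rev).val = ∑ i, w i := by
        rw [← Finset.sum_add_distrib]
        refine Finset.sum_congr rfl fun i _ => ?_
        generalize α i = k
        fin_cases k <;> simp [Fin.rev]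
      have h4 : ∑ i, w i = 436 := by decide
      apply decide_eq_true
      show 219 ≤ ∑ i, w i * ((α i).rev).val
      omega
    · exact absurd rfl e

theorem result : ¬ ∀ (d n : ℕ), 2 ≤ d → 1 ≤ n → ∀ A : (Fin d → Fin n) → Bool, Extremal A →
    ∃ m : ℕ, 0 < m ∧ deficiency A = 1 / m := by
  intro h
  obtain ⟨m, hm, e⟩ := h 11 2 (by omega) (by omega) A0 extremal
  rw [defi, div_eq_div_iff (by norm_num) (by positivity)] at e
  have : 2 * m = 1 * 219 := by exact_mod_cast e
  omega

end Pool.Agent.Results.MP_1f9c83_co.Full
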